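import Pool.Agent.V11231.MD.Alg

/-!
# The misère domination game on paths and cycles

`MisereWins mv a`: the player to move from the position `a` wins (the player who cannot move wins).
`Legal G C v`: the vertex `v` dominates a vertex which no vertex of `C` dominates. `DomMove G`: the
moves, on the sets of the chosen vertices. `AliceWins G`: the first player wins from the empty set.

Proof. The undominated vertices form intervals, and after the first move the game is the octal game
0.337, played on the lengths of the intervals. Its misère play has a closed form: a heap `x ≥ 8` has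
the weight `2 ⌊x/2⌋ - 4`, a heap `x < 8` the weight `2 (⌊x/2⌋ mod 2)`, and the winner is given by the
parities of the sums of `x` and of `⌊x/2⌋` and by the comparison of the largest weight with the sum
of the other weights.
-/

namespace Pool.Agent.Results.MP_56c280_lc.MiserePathsCycles

open Pool.Agent.NPC Pool.Agent.H656R2.AK Pool.Agent.V11231.MD

/-- **The misère domination game on paths and cycles.** Bob wins on the path with `n ≥ 1` vertices
exactly if `n ∈ {1, 2, 5, 6}` or `n ≥ 10` and `n ≡ 2 (mod 4)`; Alice wins on the cycle with `n ≥ 3`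
vertices exactly if `n ∈ {4, 8}` or `n ≥ 13` and `n ≡ 1 (mod 4)`; and there is a polynomial-time
algorithm which decides, given the adjacency matrix of a graph which is a path or a cycle, whether
Alice wins. -/
theorem result :
    (∀ n : ℕ, AliceWins (SimpleGraph.pathGraph n) ↔
      ¬ (n = 1 ∨ n = 2 ∨ n = 5 ∨ n = 6 ∨ (10 ≤ n ∧ n % 4 = 2))) ∧
    (∀ n : ℕ, 3 ≤ n → (AliceWins (SimpleGraph.cycleGraph n) ↔
      (n = 4 ∨ n = 8 ∨ (13 ≤ n ∧ n % 4 = 1)))) ∧
    ∃ alg : List Bool → List Bool, PolyTime alg ∧
      ∀ (n : ℕ) (G : SimpleGraph (Fin n)), (Nonempty (G ≃g SimpleGraph.pathGraph n) ∨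
        (3 ≤ n ∧ Nonempty (G ≃g SimpleGraph.cycleGraph n))) →
        (AliceWins G ↔ alg (bits (adjMatrix G)) = [true]) := by
  refine ⟨aliceWins_path, fun n hn => aliceWins_cycle hn, ?_⟩
  have h1 : InPP (fun M : List (List Bool) => alg M = true) := inPP_of poly_alg fun _ => Iff.rfl
  obtain ⟨V, hV, h2⟩ := h1.exists_test
  exact ⟨V, hV, fun n G h => (alg_iff h).trans (h2 _)⟩

end Pool.Agent.Results.MP_56c280_lc.MiserePathsCycles
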